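import Pool.Agent.Y262.EL.Stm

/-!
# Project EL: interior regularity (helper700)
-/

set_option autoImplicit false

open Set Filter Topology MeasureTheory
open scoped ContDiff ComplexConjugate Real

noncomputable section

namespace Pool.Agent.Y700.EL

open Pool.Agent.Y262.EG Pool.Agent.Y262.EX Pool.Agent.Y262.EL

theorem exists_bump (z0 : ℂ) {ρ ρ' : ℝ} (h : 0 < ρ) (h' : ρ < ρ') :
    ∃ η : ℂ → ℝ, ContDiff ℝ ∞ η ∧ HasCompactSupport η ∧ tsupport η ⊆ Metric.closedBall z0 ρ' ∧
      ∀ z ∈ Metric.closedBall z0 ρ, η z = 1 := by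
  let f : ContDiffBump z0 := ⟨ρ, ρ', h, h'⟩
  exact ⟨f, f.contDiff, f.hasCompactSupport, f.tsupport_eq.le,
    fun z hz => f.one_of_mem_closedBall hz⟩

/-- the product with a cutoff function is smooth -/
theorem smooth_cut {O : Set ℂ} (hO : IsOpen O) {n : WithTop ℕ∞} {F η : ℂ → ℝ}
    (hF : ContDiffOn ℝ n F O) (hη : ContDiff ℝ n η) (hs : tsupport η ⊆ O) :
    ContDiff ℝ n (fun z => F z * η z) := by
  rw [contDiff_iff_contDiffAt]
  intro x
  by_cases hx : x ∈ tsupport η
  · exact (hF.contDiffAt (hO.mem_nhds (hs hx))).mul hη.contDiffAt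
  · have h1 : (fun z => F z * η z) =ᶠ[𝓝 x] fun _ => 0 := by
      have h2 : (tsupport η)ᶜ ∈ 𝓝 x := (isClosed_tsupport η).isOpen_compl.mem_nhds hx
      filter_upwards [h2] with y hy
      rw [image_eq_zero_of_notMem_tsupport hy, mul_zero]
    exact contDiffAt_const.congr_of_eventuallyEq h1

theorem supp_cut {F η : ℂ → ℝ} (hc : HasCompactSupport η) :
    HasCompactSupport (fun z => F z * η z) := hc.mul_left

theorem int_cut {O : Set ℂ} (hO : IsOpen O) {F η : ℂ → ℝ} (hF : ContinuousOn F O)
    (hη : Continuous η) (hc : HasCompactSupport η) (hs : tsupport η ⊆ O) :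
    Integrable (fun z => F z * η z) := by
  have h1 : Continuous (fun z => F z * η z) := by
    have := smooth_cut hO (n := 0) (F := F) (η := η) (contDiffOn_zero.mpr hF)
      (contDiff_zero.mpr hη) hs
    exact this.continuous
  exact h1.integrable_of_hasCompactSupport (supp_cut hc)

/-- the directional derivative -/
def dd (e : ℂ) (F : ℂ → ℝ) (z : ℂ) : ℝ := fderiv ℝ F z e

theorem dd_smooth {O : Set ℂ} (hO : IsOpen O) {F : ℂ → ℝ} (hF : ContDiffOn ℝ ∞ F O) (e : ℂ) :
    ContDiffOn ℝ ∞ (dd e F) O :=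
  (hF.fderiv_of_isOpen hO (m := ∞) (by simp)).clm_apply contDiffOn_const

theorem dd_smooth' {F : ℂ → ℝ} (hF : ContDiff ℝ ∞ F) (e : ℂ) : ContDiff ℝ ∞ (dd e F) := by
  rw [← contDiffOn_univ] at hF ⊢
  exact dd_smooth isOpen_univ hF e

theorem dd_supp {F : ℂ → ℝ} (hF : HasCompactSupport F) (e : ℂ) : HasCompactSupport (dd e F) :=
  hF.fderiv_apply ℝ e

theorem dd_tsupp {F : ℂ → ℝ} (e : ℂ) : tsupport (dd e F) ⊆ tsupport F :=
  tsupport_fderiv_apply_subset ℝ e

theorem ibp {O : Set ℂ} (hO : IsOpen O) {F v : ℂ → ℝ} (hF : ContDiffOn ℝ ∞ F O)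
    (hv : ContDiff ℝ ∞ v) (hc : HasCompactSupport v) (hs : tsupport v ⊆ O) (e : ℂ) :
    ∫ z, F z * dd e v z = -∫ z, dd e F z * v z := by
  refine integral_mul_fderiv_eq_neg_fderiv_mul_of_integrable ?_ ?_ ?_ ?_ ?_
  · exact int_cut hO (dd_smooth hO hF e).continuousOn hv.continuous hc hs
  · exact int_cut hO hF.continuousOn (dd_smooth' hv e).continuous (dd_supp hc e)
      ((dd_tsupp e).trans hs)
  · exact int_cut hO hF.continuousOn hv.continuous hc hs
  · intro x hx
    exact (hF.contDiffAt (hO.mem_nhds (hs hx))).differentiableAt (by simp)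
  · intro x _
    exact hv.contDiffAt.differentiableAt (by simp)

theorem ibp2 {O : Set ℂ} (hO : IsOpen O) {F v : ℂ → ℝ} (hF : ContDiffOn ℝ ∞ F O)
    (hv : ContDiff ℝ ∞ v) (hc : HasCompactSupport v) (hs : tsupport v ⊆ O) (e : ℂ) :
    ∫ z, F z * dd e (dd e v) z = ∫ z, dd e (dd e F) z * v z := by
  rw [ibp hO hF (dd_smooth' hv e) (dd_supp hc e) ((dd_tsupp e).trans hs) e,
    ibp hO (dd_smooth hO hF e) hv hc hs e, neg_neg]

theorem lap_eq (v : ℂ → ℝ) (z : ℂ) : lap v z = dd 1 (dd 1 v) z + dd Complex.I (dd Complex.I v) z :=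
  rfl

/-- Green's formula -/
theorem green {O : Set ℂ} (hO : IsOpen O) {F v : ℂ → ℝ} (hF : ContDiffOn ℝ ∞ F O)
    (hv : ContDiff ℝ ∞ v) (hc : HasCompactSupport v) (hs : tsupport v ⊆ O) :
    ∫ z, F z * lap v z = ∫ z, lap F z * v z := by
  have i1 : ∀ e : ℂ, Integrable fun z => F z * dd e (dd e v) z := fun e =>
    int_cut hO hF.continuousOn (dd_smooth' (dd_smooth' hv e) e).continuous
      (dd_supp (dd_supp hc e) e) (((dd_tsupp e).trans (dd_tsupp e)).trans hs)
  have i2 : ∀ e : ℂ, Integrable fun z => dd e (dd e F) z * v z := fun e =>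
    int_cut hO (dd_smooth hO (dd_smooth hO hF e) e).continuousOn hv.continuous hc hs
  simp only [lap_eq, mul_add, add_mul]
  rw [integral_add (i1 _) (i1 _), integral_add (i2 _) (i2 _), ibp2 hO hF hv hc hs,
    ibp2 hO hF hv hc hs]

/-- representatives of class `C^k` on smaller balls -/
def Pk (z0 : ℂ) (r : ℝ) (U : ℂ → ℝ) (k : ℕ) : Prop :=
  ∀ ρ : ℝ, 0 < ρ → ρ < r → ∃ W : ℂ → ℝ, ContDiffOn ℝ k W (Metric.ball z0 ρ) ∧
    ∀ᵐ z ∂volume.restrict (Metric.ball z0 ρ), U z = W z

theorem base (h2 : StPot2) (hR : StRep) {z0 : ℂ} {r : ℝ} {a U : ℂ → ℝ} (hr : 0 < r)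
    (ha : ContDiffOn ℝ ∞ a (Metric.ball z0 r))
    (hU : MemLp U 2 (volume.restrict (Metric.ball z0 r))) (hW : WkEq z0 r a U) :
    Pk z0 r U 0 := by
  intro ρ hρ hρr
  obtain ⟨η, η1, η2, η3, η4⟩ := exists_bump z0 (ρ := (ρ + r) / 2) (ρ' := (ρ + 3 * r) / 4)
    (by linarith) (by linarith)
  have hs : tsupport η ⊆ Metric.ball z0 r :=
    η3.trans (Metric.closedBall_subset_ball (by linarith))
  obtain ⟨S, hS, hSU⟩ := hR z0 r a U hr ha hU hW ρ ((ρ + r) / 2) hρ (by linarith) (by linarith) η
    ⟨η1, η2, hs⟩ (fun z hz => η4 z (Metric.ball_subset_closedBall hz))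
  refine ⟨_, ?_, hSU⟩
  have hb : Continuous (fun z => a z * η z) :=
    (smooth_cut Metric.isOpen_ball ha η1 hs).continuous
  have hbc : HasCompactSupport (fun z => a z * η z) := supp_cut η2
  obtain ⟨C, hC⟩ := hbc.exists_bound_of_continuous hb
  have hU' : MemLp (indicator (Metric.ball z0 r) U) 2 volume :=
    (memLp_indicator_iff_restrict measurableSet_ball).mpr hU
  have hf : (fun y => a y * η y * U y) = fun y => (a y * η y) * indicator (Metric.ball z0 r) U y := by
    funext y
    by_cases hy : y ∈ Metric.ball z0 r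
    · rw [indicator_of_mem hy]
    · have : η y = 0 := image_eq_zero_of_notMem_tsupport fun h => hy (hs h)
      rw [this]; simp
  have hmem : MemLp (fun y => a y * η y * U y) 2 volume := by
    rw [hf]
    refine MemLp.of_le_mul (c := C) hU' (hb.aestronglyMeasurable.mul hU'.1) ?_
    refine Eventually.of_forall fun y => ?_
    rw [norm_mul]
    exact mul_le_mul_of_nonneg_right (hC y) (norm_nonneg _)
  have hcs : HasCompactSupport (fun y => a y * η y * U y) := hbc.mul_right
  have hpot := h2 _ hmem hcs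
  exact_mod_cast contDiffOn_zero.mpr (hS.continuousOn.sub hpot.continuousOn)

theorem pot_congr {f g : ℂ → ℝ} (h : ∀ᵐ y, f y = g y) (z : ℂ) : pot f z = pot g z := by
  unfold pot
  congr 1
  refine integral_congr_ae ?_
  filter_upwards [h] with y hy
  rw [hy]

theorem step (h3 : StPot3) (hR : StRep) {z0 : ℂ} {r : ℝ} {a U : ℂ → ℝ} (hr : 0 < r)
    (ha : ContDiffOn ℝ ∞ a (Metric.ball z0 r))
    (hU : MemLp U 2 (volume.restrict (Metric.ball z0 r))) (hW : WkEq z0 r a U) {k : ℕ}
    (hP : Pk z0 r U k) : Pk z0 r U (k + 1) := by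
  intro ρ hρ hρr
  obtain ⟨η, η1, η2, η3, η4⟩ := exists_bump z0 (ρ := (ρ + r) / 2) (ρ' := (ρ + 3 * r) / 4)
    (by linarith) (by linarith)
  obtain ⟨W, hW1, hW2⟩ := hP ((ρ + 7 * r) / 8) (by linarith) (by linarith)
  have hs' : tsupport η ⊆ Metric.ball z0 ((ρ + 7 * r) / 8) :=
    η3.trans (Metric.closedBall_subset_ball (by linarith))
  have hsub : Metric.ball z0 ((ρ + 7 * r) / 8) ⊆ Metric.ball z0 r :=
    Metric.ball_subset_ball (by linarith)
  obtain ⟨S, hS, hSU⟩ := hR z0 r a U hr ha hU hW ρ ((ρ + r) / 2) hρ (by linarith) (by linarith) η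
    ⟨η1, η2, hs'.trans hsub⟩ (fun z hz => η4 z (Metric.ball_subset_closedBall hz))
  have hle : ((k : ℕ) : WithTop ℕ∞) ≤ ∞ := by exact_mod_cast le_top
  have hf : ContDiff ℝ k (fun y => (a y * W y) * η y) :=
    smooth_cut Metric.isOpen_ball (((ha.mono hsub).of_le hle).mul hW1) (η1.of_le hle) hs'
  have hcs : HasCompactSupport (fun y => (a y * W y) * η y) := supp_cut η2
  have hpot := h3 k _ hf hcs
  have hae : ∀ᵐ y, a y * η y * U y = (a y * W y) * η y := by
    have h1 := (ae_restrict_iff' measurableSet_ball).mp hW2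
    filter_upwards [h1] with y hy
    by_cases hyb : y ∈ Metric.ball z0 ((ρ + 7 * r) / 8)
    · rw [hy hyb]; ring
    · have : η y = 0 := image_eq_zero_of_notMem_tsupport fun h => hyb (hs' h)
      rw [this]; simp
  refine ⟨fun z => S z - pot (fun y => (a y * W y) * η y) z, ?_, ?_⟩
  · have hle' : ((k + 1 : ℕ) : WithTop ℕ∞) ≤ ∞ := by exact_mod_cast le_top
    exact (hS.of_le hle').sub hpot.contDiffOn
  · filter_upwards [hSU] with z hz
    rw [hz, pot_congr hae]

/-- interior regularity -/
theorem regu : StPot2 → StPot3 → StRep → StRegu := by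
  intro h2 h3 hR z0 r a U hr ha hU hW
  have hP : ∀ k, Pk z0 r U k := by
    intro k
    induction k with
    | zero => exact base h2 hR hr ha hU hW
    | succ k ih => exact step h3 hR hr ha hU hW ih
  have h0 := hP 0
  unfold Pk at h0
  choose! W hW1 hW2 using h0
  set V : ℂ → ℝ := fun z => W ((dist z z0 + r) / 2) z with hV
  -- `V` agrees with every continuous representative
  have key : ∀ (ρ : ℝ) (F : ℂ → ℝ), 0 < ρ → ρ < r → ContinuousOn F (Metric.ball z0 ρ) →
      (∀ᵐ z ∂volume.restrict (Metric.ball z0 ρ), U z = F z) → ∀ z ∈ Metric.ball z0 ρ, V z = F z := by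
    intro ρ F hρ hρr hF hFU z hz
    have hzr : dist z z0 < r := lt_trans hz hρr
    have hd : 0 ≤ dist z z0 := dist_nonneg
    set s := (dist z z0 + r) / 2 with hs
    have hs0 : 0 < s := by linarith
    have hsr : s < r := by linarith
    have hzs : z ∈ Metric.ball z0 s := by
      rw [Metric.mem_ball]; linarith
    have hc := (hW1 s hs0 hsr).continuousOn
    have hmin : Metric.ball z0 (min s ρ) ⊆ Metric.ball z0 s :=
      Metric.ball_subset_ball (min_le_left _ _)
    have hmin' : Metric.ball z0 (min s ρ) ⊆ Metric.ball z0 ρ :=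
      Metric.ball_subset_ball (min_le_right _ _)
    have hae : W s =ᵐ[volume.restrict (Metric.ball z0 (min s ρ))] F := by
      have e1 := ae_restrict_of_ae_restrict_of_subset hmin (hW2 s hs0 hsr)
      have e2 := ae_restrict_of_ae_restrict_of_subset hmin' hFU
      filter_upwards [e1, e2] with y y1 y2
      rw [← y1, y2]
    exact Measure.eqOn_open_of_ae_eq hae Metric.isOpen_ball (hc.mono hmin) (hF.mono hmin')
      (by rw [Metric.mem_ball]; exact lt_min hzs hz)
  have hVs : ContDiffOn ℝ ∞ V (Metric.ball z0 r) := by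
    rw [contDiffOn_infty]
    intro k z hz
    have hzr : dist z z0 < r := hz
    have hd : 0 ≤ dist z z0 := dist_nonneg
    obtain ⟨F, hF1, hF2⟩ := hP k ((dist z z0 + r) / 2) (by linarith) (by linarith)
    have hzs : z ∈ Metric.ball z0 ((dist z z0 + r) / 2) := by
      rw [Metric.mem_ball]; linarith
    have h4 := key _ F (by linarith) (by linarith) hF1.continuousOn hF2
    have h5 : ContDiffAt ℝ k F z := hF1.contDiffAt (Metric.isOpen_ball.mem_nhds hzs)
    refine (h5.congr_of_eventuallyEq ?_).contDiffWithinAt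
    filter_upwards [Metric.isOpen_ball.mem_nhds hzs] with y hy
    exact h4 y hy
  have hVae : ∀ᵐ z ∂volume.restrict (Metric.ball z0 r), U z = V z := by
    obtain ⟨u, -, hu, hlim⟩ := exists_seq_strictMono_tendsto' hr
    rw [ae_restrict_iff' measurableSet_ball]
    have h6 : ∀ n, ∀ᵐ z, z ∈ Metric.ball z0 (u n) → U z = V z := by
      intro n
      rw [← ae_restrict_iff' measurableSet_ball]
      filter_upwards [hW2 (u n) (hu n).1 (hu n).2, ae_restrict_mem measurableSet_ball] with z h7 h8
      rw [h7, key (u n) _ (hu n).1 (hu n).2 (hW1 (u n) (hu n).1 (hu n).2).continuousOn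
        (hW2 (u n) (hu n).1 (hu n).2) z h8]
    filter_upwards [ae_all_iff.mpr h6] with z h9 hz
    obtain ⟨n, hn⟩ := (hlim.eventually (lt_mem_nhds hz)).exists
    exact h9 n hn
  refine ⟨V, hVs, hVae, ?_⟩
  have hlapc : ContinuousOn (fun z => lap V z + a z * V z) (Metric.ball z0 r) := by
    have e1 := (dd_smooth Metric.isOpen_ball (dd_smooth Metric.isOpen_ball hVs 1) 1).continuousOn
    have e2 := (dd_smooth Metric.isOpen_ball (dd_smooth Metric.isOpen_ball hVs Complex.I)
      Complex.I).continuousOn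
    exact (e1.add e2).add (ha.continuousOn.mul hVs.continuousOn)
  have hzero : ∀ᵐ z, z ∈ Metric.ball z0 r → lap V z + a z * V z = 0 := by
    refine Metric.isOpen_ball.ae_eq_zero_of_integral_contDiff_smul_eq_zero
      (hlapc.locallyIntegrableOn measurableSet_ball) ?_
    intro v hv hvc hvs
    have e1 : ∫ z, V z * (lap v z + a z * v z) = 0 := by
      rw [← hW v ⟨hv, hvc, hvs⟩]
      refine integral_congr_ae ?_
      filter_upwards [(ae_restrict_iff' measurableSet_ball).mp hVae] with z hz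
      by_cases hzb : z ∈ Metric.ball z0 r
      · rw [hz hzb]
      · have e3 : v z = 0 := image_eq_zero_of_notMem_tsupport fun h => hzb (hvs h)
        have e4 : ∀ e, dd e (dd e v) z = 0 := fun e =>
          image_eq_zero_of_notMem_tsupport fun h =>
            hzb (hvs (((dd_tsupp e).trans (dd_tsupp e)) h))
        rw [lap_eq, e4, e4, e3]; simp
    have i1 : Integrable fun z => V z * lap v z := by
      have j : ∀ e : ℂ, Integrable fun z => V z * dd e (dd e v) z := fun e =>
        int_cut Metric.isOpen_ball hVs.continuousOn (dd_smooth' (dd_smooth' hv e) e).continuous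
          (dd_supp (dd_supp hvc e) e) (((dd_tsupp e).trans (dd_tsupp e)).trans hvs)
      simp only [lap_eq, mul_add]
      exact (j 1).add (j Complex.I)
    have i2 : Integrable fun z => (a z * V z) * v z :=
      int_cut Metric.isOpen_ball (ha.continuousOn.mul hVs.continuousOn) hv.continuous hvc hvs
    have i3 : Integrable fun z => lap V z * v z := by
      have j : ∀ e : ℂ, Integrable fun z => dd e (dd e V) z * v z := fun e =>
        int_cut Metric.isOpen_ball (dd_smooth Metric.isOpen_ball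
          (dd_smooth Metric.isOpen_ball hVs e) e).continuousOn hv.continuous hvc hvs
      simp only [lap_eq, add_mul]
      exact (j 1).add (j Complex.I)
    have e2 : (fun z => V z * (lap v z + a z * v z)) =
        fun z => V z * lap v z + (a z * V z) * v z := by funext z; ring
    rw [e2, integral_add i1 i2, green Metric.isOpen_ball hVs hv hvc hvs, ← integral_add i3 i2] at e1
    rw [← e1]
    refine integral_congr_ae (Eventually.of_forall fun z => ?_)
    simp only [smul_eq_mul]
    ring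
  have h10 : EqOn (fun z => lap V z + a z * V z) (fun _ => 0) (Metric.ball z0 r) :=
    Measure.eqOn_open_of_ae_eq ((ae_restrict_iff' measurableSet_ball).mpr hzero)
      Metric.isOpen_ball hlapc continuousOn_const
  exact fun z hz => h10 hz

end Pool.Agent.Y700.EL
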